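import Pool.Agent.H.MP_7f6035_co.Defs

namespace Pool.Agent.H.MP_7f6035_co

open Finset

def kp {d : ℕ} (S : Finset (Fin d × Bool)) : ℕ := if S = univ then d + 1 else S.card

def NA {d : ℕ} (S : Finset (Fin d × Bool)) : Prop := ∀ i, ¬ ((i, true) ∈ S ∧ (i, false) ∈ S)

theorem NA.inj {d : ℕ} {S : Finset (Fin d × Bool)} (h : NA S) : Set.InjOn Prod.fst (S : Set (Fin d × Bool)) := by
  rintro ⟨i, a⟩ ha ⟨j, b⟩ hb e
  simp only at e
  subst e
  have := h i
  cases a <;> cases b <;> simp_all

theorem NA.card {d : ℕ} {S : Finset (Fin d × Bool)} (h : NA S) : S.card ≤ d := by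
  rw [← card_image_of_injOn h.inj]
  simpa using card_le_univ (S.image Prod.fst)

theorem CrossFace.na {d : ℕ} {S : Finset (Fin d × Bool)} (h : CrossFace d S) (h' : S ≠ univ) :
    NA S := (h.resolve_left h').2

theorem kp_le {d : ℕ} {S : Finset (Fin d × Bool)} (h : CrossFace d S) : kp S ≤ d + 1 := by
  unfold kp; split_ifs with e
  · exact le_rfl
  · have := (h.na e).card; omega

theorem kp_pos {d : ℕ} {S : Finset (Fin d × Bool)} (h : CrossFace d S) : 1 ≤ kp S := by
  unfold kp; split_ifs with e
  · omega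
  · exact card_pos.2 (h.resolve_left e).1

theorem kp_mono {d : ℕ} {S T : Finset (Fin d × Bool)} (h : CrossFace d S) (hs : S ⊆ T) :
    kp S ≤ kp T := by
  by_cases e : T = univ
  · rw [e]; simpa [kp] using kp_le h
  · have : S ≠ univ := fun e' => e (by rw [e'] at hs; exact univ_subset_iff.1 hs)
    simpa [kp, e, this] using card_le_card hs

theorem kp_eq {d : ℕ} {S T : Finset (Fin d × Bool)} (h : CrossFace d S) (hs : S ⊆ T)
    (hk : kp T ≤ kp S) : S = T := by
  by_cases e' : S = univ
  · rw [e'] at hs ⊢; exact (univ_subset_iff.1 hs).symm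
  by_cases e : T = univ
  · have := (h.na e').card
    simp only [kp, e, e', if_true, if_false] at hk; omega
  · exact eq_of_subset_of_card_le hs (by simpa [kp, e, e'] using hk)

theorem ins {d : ℕ} {A X : Finset (Fin d × Bool)} (hs : A ⊆ X) (hk : X.card = A.card + 1) :
    ∃ x, x ∉ A ∧ X = insert x A := by
  obtain ⟨x, h1, h2⟩ := exists_mem_notMem_of_card_lt_card (show A.card < X.card by omega)
  exact ⟨x, h2, (eq_of_subset_of_card_le (insert_subset h1 hs)
    (by rw [card_insert_of_notMem h2]; omega)).symm⟩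

theorem dia1 {d : ℕ} {A X Y Z B : Finset (Fin d × Bool)} (hB : CrossFace d B) (hX : CrossFace d X)
    (hY : CrossFace d Y) (hZ : CrossFace d Z) (aX : A ⊆ X) (aY : A ⊆ Y) (aZ : A ⊆ Z) (xB : X ⊆ B)
    (yB : Y ⊆ B) (zB : Z ⊆ B) (k1 : kp X = A.card + 1) (k2 : kp Y = A.card + 1)
    (k3 : kp Z = A.card + 1) (k4 : kp B = A.card + 2) : X = Y ∨ X = Z ∨ Y = Z := by
  have hb := kp_le hB
  have nu : ∀ W : Finset (Fin d × Bool), kp W = A.card + 1 → W ≠ univ ∧ W.card = A.card + 1 := by
    intro W h
    unfold kp at h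
    split_ifs at h with e
    · omega
    · exact ⟨e, h⟩
  obtain ⟨x, x1, rfl⟩ := ins aX (nu X k1).2
  obtain ⟨y, y1, rfl⟩ := ins aY (nu Y k2).2
  obtain ⟨z, z1, rfl⟩ := ins aZ (nu Z k3).2
  by_contra hc
  push Not at hc
  have xy : x ≠ y := fun e => hc.1 (by rw [e])
  have xz : x ≠ z := fun e => hc.2.1 (by rw [e])
  have yz : y ≠ z := fun e => hc.2.2 (by rw [e])
  by_cases e : B = univ
  · have key : ∀ u v : Fin d × Bool, u ∉ A → v ∉ A → NA (insert u A) → NA (insert v A) → u ≠ v →
        u.2 = v.2 → False := by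
      intro u v hu hv nu nv ne e2
      have : NA (insert u (insert v A)) := by
        intro i hi
        have a := nu i
        have b := nv i
        simp only [mem_insert] at hi a b
        obtain ⟨h1 | h1 | h1, h2 | h2 | h2⟩ := hi
        all_goals first
          | exact a ⟨by tauto, by tauto⟩
          | exact b ⟨by tauto, by tauto⟩
          | (rw [← h1, ← h2] at e2; simp at e2)
      have := this.card
      rw [card_insert_of_notMem (by simp [hu, ne]), card_insert_of_notMem hv] at this
      simp only [kp, e, if_true] at k4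
      omega
    have n1 := hX.na (nu _ k1).1
    have n2 := hY.na (nu _ k2).1
    have n3 := hZ.na (nu _ k3).1
    have : x.2 = y.2 ∨ x.2 = z.2 ∨ y.2 = z.2 := by cases x.2 <;> cases y.2 <;> cases z.2 <;> simp
    rcases this with h | h | h
    · exact key x y x1 y1 n1 n2 xy h
    · exact key x z x1 z1 n1 n3 xz h
    · exact key y z y1 z1 n2 n3 yz h
  · have : insert x (insert y (insert z A)) ⊆ B :=
      insert_subset (xB (mem_insert_self _ _)) (insert_subset (yB (mem_insert_self _ _)) zB)
    have := card_le_card this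
    rw [card_insert_of_notMem (by simp [x1, xy, xz]), card_insert_of_notMem (by simp [y1, yz]),
      card_insert_of_notMem z1] at this
    simp only [kp, e, if_false] at k4
    omega

variable {m : ℕ} {d : Fin m → ℕ}

abbrev Fc (d : Fin m → ℕ) := ∀ j, Finset (Fin (d j) × Bool)

def IsF (S : Fc d) : Prop := ∀ j, CrossFace (d j) (S j)

def K (S : Fc d) : ℕ := ∑ j, kp (S j)

theorem K_lt {S T : Fc d} (h : IsF S) (hs : S < T) : K S < K T := by
  refine sum_lt_sum (fun j _ => kp_mono (h j) (hs.le j)) ?_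
  by_contra hc
  push Not at hc
  exact hs.ne (funext fun j => kp_eq (h j) (hs.le j) (hc j (mem_univ _)))

theorem cover {S T : Fc d} (h : IsF S) (hs : S ≤ T) (hk : K T = K S + 1) :
    ∃ j, kp (T j) = kp (S j) + 1 ∧ ∀ k, k ≠ j → S k = T k := by
  have : ∃ j, kp (S j) < kp (T j) := by
    by_contra hc
    push Not at hc
    have : K T ≤ K S := sum_le_sum fun j _ => hc j
    omega
  obtain ⟨j, hj⟩ := this
  have e1 := add_sum_erase univ (fun k => kp (S k)) (mem_univ j)
  have e2 := add_sum_erase univ (fun k => kp (T k)) (mem_univ j)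
  have le : ∀ k ∈ univ.erase j, kp (S k) ≤ kp (T k) := fun k _ => kp_mono (h k) (hs k)
  have l := sum_le_sum le
  unfold K at hk
  refine ⟨j, by omega, fun k hk' => kp_eq (h k) (hs k) ?_⟩
  exact ((sum_eq_sum_iff_of_le le).1 (by omega) k (by simpa using hk')).ge

theorem dia2 {X Y Z H : Fc d} (hH : IsF H) (hX : IsF X) (hY : IsF Y) (hZ : IsF Z) (xH : X ≤ H)
    (yH : Y ≤ H) (zH : Z ≤ H) (k1 : K H = K X + 1) (k2 : K H = K Y + 1) (k3 : K H = K Z + 1)
    (hG : K X = m ∨ ∃ G : Fc d, IsF G ∧ G ≤ X ∧ G ≤ Y ∧ G ≤ Z ∧ K X = K G + 1) :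
    X = Y ∨ X = Z ∨ Y = Z := by
  obtain ⟨a, a1, a2⟩ := cover hX xH k1
  obtain ⟨b, b1, b2⟩ := cover hY yH k2
  obtain ⟨c, c1, c2⟩ := cover hZ zH k3
  have fin : ∀ {U V : Fc d} {j}, (∀ k, k ≠ j → U k = H k) → (∀ k, k ≠ j → V k = H k) → U j = V j →
      U = V := by
    intro U V j h1 h2 h
    funext k
    by_cases e : k = j
    · rw [e, h]
    · rw [h1 k e, h2 k e]
  rcases hG with h0 | ⟨G, hG, gX, gY, gZ, kG⟩
  · have one : ∀ U : Fc d, IsF U → K U = m → ∀ j, kp (U j) = 1 := by
      intro U hU h j
      exact ((sum_eq_sum_iff_of_le (f := fun _ => 1) fun k _ => kp_pos (hU k)).1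
        (by simpa [K] using h.symm) j (mem_univ _)).symm
    have oX := one X hX h0
    have oY := one Y hY (by omega)
    have oZ := one Z hZ (by omega)
    have ab : a = b := by
      by_contra e
      have := oY a; rw [b2 a e] at this; have := oX a; omega
    have ac : a = c := by
      by_contra e
      have := oZ a; rw [c2 a e] at this; have := oX a; omega
    subst ab ac
    rcases dia1 (A := ∅) (hH a) (hX a) (hY a) (hZ a) (by simp) (by simp) (by simp) (xH a) (yH a)
      (zH a) (oX a) (oY a) (oZ a) (by rw [a1, oX a]; rfl) with h | h | h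
    · exact .inl (fin a2 b2 h)
    · exact .inr (.inl (fin a2 c2 h))
    · exact .inr (.inr (fin b2 c2 h))
  · obtain ⟨g, g1, g2⟩ := cover hG gX kG
    have mY := fun j => kp_mono (hG j) (gY j)
    have mZ := fun j => kp_mono (hG j) (gZ j)
    by_cases ga : g = a
    · subst ga
      have ab : b = g := by
        by_contra e
        have := mY b; rw [g2 b e, a2 b e] at this; omega
      have ac : c = g := by
        by_contra e
        have := mZ c; rw [g2 c e, a2 c e] at this; omega
      subst ab
      subst ac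
      have hb := kp_le (hH c)
      have kc : kp (G c) = (G c).card := by
        unfold kp at g1 ⊢; split_ifs with e
        · rw [if_pos e] at g1; unfold kp at a1 hb; omega
        · rfl
      rcases dia1 (A := G c) (hH c) (hX c) (hY c) (hZ c) (gX c) (gY c) (gZ c) (xH c) (yH c)
        (zH c) (by omega) (by omega) (by omega) (by omega) with h | h | h
      · exact .inl (fin a2 b2 h)
      · exact .inr (.inl (fin a2 c2 h))
      · exact .inr (.inr (fin b2 c2 h))
    · have ga' : a ≠ g := fun e => ga e.symm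
      have two : ∀ {U : Fc d} {u}, G ≤ U → kp (H u) = kp (U u) + 1 →
          (u = a ∨ u = g) ∧ G u = U u := by
        intro U u gU hu
        have := kp_mono (hG u) (gU u)
        by_cases e1 : u = a
        · subst e1
          exact ⟨.inl rfl, kp_eq (hG u) (gU u) (by rw [g2 u ga']; omega)⟩
        by_cases e2 : u = g
        · subst e2
          exact ⟨.inr rfl, kp_eq (hG u) (gU u) (by rw [← a2 u ga] at hu; omega)⟩
        · rw [g2 u e2, a2 u e1] at this; omega
      obtain ⟨hb | hb, eb⟩ := two gY b1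
      · subst hb; exact .inl (fin a2 b2 ((g2 b ga').symm.trans eb))
      obtain ⟨hc | hc, ec⟩ := two gZ c1
      · subst hc; exact .inr (.inl (fin a2 c2 ((g2 c ga').symm.trans ec)))
      · subst hb; subst hc; exact .inr (.inr (fin b2 c2 (eb.symm.trans ec)))

end Pool.Agent.H.MP_7f6035_co
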