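import Pool.Agent.H.MP_7f6035_co.A

namespace Pool.Agent.H.MP_7f6035_co

open Finset

structure Sq (d : ℕ) (u : ℤ → Fin d × Bool) : Prop where
  pos : 0 < d
  U1 : ∀ r r', (u r).1 = (u r').1 → (d : ℤ) ∣ r - r'
  U2 : ∀ r r', u r = u r' → 2 * (d : ℤ) ∣ r - r'
  U3 : ∀ r, u (r + 2 * d) = u r

noncomputable def f {d : ℕ} (u : ℤ → Fin d × Bool) (p q : ℤ) : Finset (Fin d × Bool) :=
  if (d : ℤ) ≤ q - p then univ else (Icc p q).image u

theorem eq_of_dvd {D r r' : ℤ} (h : D ∣ r - r') (h1 : r - r' < D) (h2 : r' - r < D) : r = r' := by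
  have := Int.eq_zero_of_abs_lt_dvd h (by rw [abs_lt]; omega)
  omega

theorem Sq.na {d u} (h : Sq d u) {p q : ℤ} (hq : q - p < d) : NA ((Icc p q).image u) := by
  rintro i ⟨a, b⟩
  obtain ⟨r, hr, e⟩ := mem_image.1 a
  obtain ⟨r', hr', e'⟩ := mem_image.1 b
  rw [mem_Icc] at hr hr'
  have := eq_of_dvd (h.U1 r r' (by rw [e, e'])) (by omega) (by omega)
  rw [this, e'] at e
  simp at e

theorem Sq.ne {d u} (h : Sq d u) {p q : ℤ} (hq : q - p < d) : (Icc p q).image u ≠ univ :=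
  fun e => h.na hq ⟨0, h.pos⟩ (by rw [e]; simp)

theorem Sq.face {d u} (h : Sq d u) {p q : ℤ} (hq : p ≤ q) : CrossFace d (f u p q) := by
  unfold f; split_ifs with e
  · exact .inl rfl
  · exact .inr ⟨(nonempty_Icc.2 hq).image _, h.na (by omega)⟩

theorem Sq.kp {d u} (h : Sq d u) {p q : ℤ} (h1 : p ≤ q) (h2 : q - p ≤ d) :
    (kp (f u p q) : ℤ) = q - p + 1 := by
  unfold f; split_ifs with e
  · simp [Pool.Agent.H.MP_7f6035_co.kp]; omega
  · rw [Pool.Agent.H.MP_7f6035_co.kp, if_neg (h.ne (by omega)), card_image_of_injOn]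
    · simp only [Int.card_Icc]; omega
    · intro r hr r' hr' e'
      rw [coe_Icc, Set.mem_Icc] at hr hr'
      exact eq_of_dvd (h.U1 r r' (by rw [e'])) (by omega) (by omega)

theorem f_mono {d : ℕ} (u : ℤ → Fin d × Bool) {p q p' q' : ℤ} (h1 : p' ≤ p) (h2 : q ≤ q') :
    f u p q ⊆ f u p' q' := by
  unfold f; split_ifs with a b b
  · exact subset_rfl
  · omega
  · exact subset_univ _
  · exact image_subset_image (Icc_subset_Icc h1 h2)

theorem Sq.per {d u} (h : Sq d u) (p q : ℤ) : f u (p + 2 * d) (q + 2 * d) = f u p q := by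
  unfold f
  rw [show q + 2 * d - (p + 2 * d) = q - p by ring, ← image_add_right_Icc, image_image]
  congr 2
  funext r
  exact h.U3 r

theorem Sq.sep {d u} (h : Sq d u) {p p' w : ℤ} (h0 : 0 ≤ w) (h1 : w < d)
    (e : f u p (p + w) = f u p' (p' + w)) : 2 * (d : ℤ) ∣ p - p' := by
  unfold f at e
  rw [if_neg (by omega), if_neg (by omega)] at e
  obtain ⟨r, hr, a⟩ := mem_image.1 (e ▸ mem_image_of_mem u (mem_Icc.2 ⟨le_rfl, by omega⟩) :
    u p ∈ (Icc p' (p' + w)).image u)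
  obtain ⟨r', hr', b⟩ := mem_image.1 (e ▸ mem_image_of_mem u (mem_Icc.2 ⟨by omega, le_rfl⟩) :
    u (p + w) ∈ (Icc p' (p' + w)).image u)
  rw [mem_Icc] at hr hr'
  have a' := h.U2 _ _ a.symm
  have b' := h.U2 _ _ b.symm
  have := eq_of_dvd (D := 2 * d) (r := r + w) (r' := r')
    (by have := dvd_sub b' a'; rwa [show p + w - r' - (p - r) = r + w - r' by ring] at this) (by omega) (by omega)
  rwa [show p' = r by omega]

variable {m : ℕ} {d : Fin m → ℕ}

structure Cv (d : Fin m → ℕ) (n : ℕ) where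
  N : Fin m → ℤ → ℤ
  u : ∀ j, ℤ → Fin (d j) × Bool
  sq : ∀ j, Sq (d j) (u j)
  N1 : ∀ j s, N j (s + 1) = N j s ∨ N j (s + 1) = N j s + 1
  N2 : ∀ s, ∑ j, N j s = s
  N3 : ∀ j s, N j (s + n) = N j s + d j

variable {n : ℕ}

noncomputable def Cv.F (c : Cv d n) (a b : ℤ) : Fc d := fun j => f (c.u j) (c.N j a) (c.N j b)

theorem Cv.mono (c : Cv d n) (j) : Monotone (c.N j) :=
  monotone_int_of_le_succ fun s => by have := c.N1 j s; omega

theorem Cv.isF (c : Cv d n) {a b : ℤ} (h : a ≤ b) : IsF (c.F a b) :=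
  fun j => (c.sq j).face (c.mono j h)

theorem Cv.kp (c : Cv d n) {a b : ℤ} (h : a ≤ b) (h2 : b ≤ a + n) (j) :
    (kp (c.F a b j) : ℤ) = c.N j b - c.N j a + 1 :=
  (c.sq j).kp (c.mono j h) (by have := c.mono j h2; rw [c.N3] at this; omega)

theorem Cv.K (c : Cv d n) {a b : ℤ} (h : a ≤ b) (h2 : b ≤ a + n) :
    (K (c.F a b) : ℤ) = m + (b - a) := by
  unfold Pool.Agent.H.MP_7f6035_co.K
  push_cast
  simp only [c.kp h h2, sum_add_distrib, sum_sub_distrib, c.N2]
  simp; ring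

theorem Cv.le (c : Cv d n) {a b a' b' : ℤ} (h : a' ≤ a) (h2 : b ≤ b') : c.F a b ≤ c.F a' b' :=
  fun j => f_mono _ (c.mono j h) (c.mono j h2)

theorem Cv.per1 (c : Cv d n) (a b : ℤ) : c.F (a + 2 * n) (b + 2 * n) = c.F a b := by
  funext j
  have : ∀ s, c.N j (s + 2 * n) = c.N j s + 2 * d j := fun s => by
    rw [show s + 2 * (n : ℤ) = s + n + n by ring, c.N3, c.N3]; ring
  simp only [Cv.F, this, (c.sq j).per]

theorem Cv.per (c : Cv d n) (a b k : ℤ) : c.F (a + 2 * n * k) (b + 2 * n * k) = c.F a b := by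
  induction k using Int.induction_on with
  | zero => simp
  | succ k ih => rw [← ih, ← c.per1 (a + 2 * n * k)]; congr 1 <;> ring
  | pred k ih => rw [← ih, ← c.per1]; congr 1 <;> ring

theorem Cv.core (c : Cv d n) {a i δ : ℤ} (h0 : 0 ≤ i) (h1 : i < n) (h2 : 0 < δ) (h3 : δ ≤ n)
    (e : c.F a (a + i) = c.F (a + δ) (a + δ + i)) : False := by
  have : ∃ j, c.N j (a + i + 1) = c.N j (a + i) + 1 := by
    by_contra hc
    push Not at hc
    have : ∑ j, c.N j (a + i + 1) = ∑ j, c.N j (a + i) :=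
      sum_congr rfl fun j _ => (c.N1 j _).resolve_right (hc j)
    rw [c.N2, c.N2] at this
    omega
  obtain ⟨j, hj⟩ := this
  have a1 := c.mono j (show a + i + 1 ≤ a + n by omega)
  have a2 := c.mono j (show a ≤ a + i by omega)
  have a3 := c.mono j (show a + i + 1 ≤ a + δ + i by omega)
  have a4 := c.mono j (show a + δ ≤ a + n by omega)
  rw [c.N3] at a1 a4
  have k1 := c.kp (show a ≤ a + i by omega) (by omega) j
  have k2 := c.kp (show a + δ ≤ a + δ + i by omega) (by omega) j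
  rw [← e, k1] at k2
  have e' : f (c.u j) (c.N j a) (c.N j (a + i)) = f (c.u j) (c.N j (a + δ)) (c.N j (a + δ + i)) :=
    congrFun e j
  have := (c.sq j).sep (p := c.N j a) (p' := c.N j (a + δ)) (w := c.N j (a + i) - c.N j a)
    (by omega) (by omega) (by convert e' using 2 <;> omega)
  have := eq_of_dvd this (by omega) (by omega)
  omega

theorem Cv.sep (c : Cv d n) {a i k : ℤ} (h0 : 0 ≤ i) (h1 : i < n)
    (e : c.F a (a + i) = c.F (a + k) (a + k + i)) : 2 * (n : ℤ) ∣ k := by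
  have hk := Int.mul_ediv_add_emod k (2 * n)
  have b1 := Int.emod_nonneg k (show 2 * (n : ℤ) ≠ 0 by omega)
  have b2 := Int.emod_lt_of_pos k (show 0 < 2 * (n : ℤ) by omega)
  by_contra hc
  have b3 : k % (2 * n) ≠ 0 := fun h => hc (Int.dvd_of_emod_eq_zero h)
  generalize k % (2 * n) = δ at *
  have e2 : c.F a (a + i) = c.F (a + δ) (a + δ + i) := by
    rw [e, ← c.per (a + δ) _ (k / (2 * n))]; congr 1 <;> linarith
  by_cases h : δ ≤ n
  · exact c.core h0 h1 (by omega) h e2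
  · refine c.core (a := a + δ) (δ := 2 * n - δ) h0 h1 (by omega) (by omega) ?_
    rw [← e2, ← c.per1]; congr 1 <;> ring

end Pool.Agent.H.MP_7f6035_co
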