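import Pool.Agent.H.MP_7f6035_co.B

namespace Pool.Agent.H.MP_7f6035_co

open Finset

variable {m : ℕ} {d : Fin m → ℕ} {n : ℕ}

def ext (Ψ : Fin n → Fc d) (t : ℕ) : Fc d := if h : t < n then Ψ ⟨t, h⟩ else fun _ => univ

theorem ext_isF {Ψ : Fin n → Fc d} (h : IsFlag (CrossProd d) Ψ) (t : ℕ) : IsF (ext Ψ t) := by
  unfold ext; split_ifs
  · exact (h.2 _).1
  · exact fun _ => .inl rfl

theorem ext_lt {Ψ : Fin n → Fc d} (h : IsFlag (CrossProd d) Ψ) (t : ℕ) (ht : t < n) :
    ext Ψ t < ext Ψ (t + 1) := by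
  unfold ext; rw [dif_pos ht]; split_ifs
  · exact h.1 (by simp [Fin.lt_def])
  · exact lt_of_le_of_ne (fun j => subset_univ _) (h.2 _).2

theorem ext_K {Ψ : Fin n → Fc d} (hn : n = ∑ j, d j) (h : IsFlag (CrossProd d) Ψ) (t : ℕ)
    (ht : t ≤ n) : K (ext Ψ t) = m + t := by
  have s := fun t ht => K_lt (ext_isF h t) (ext_lt h t ht)
  have lo : ∀ t ≤ n, m + t ≤ K (ext Ψ t) := by
    intro t ht
    induction t with
    | zero => simpa [K] using sum_le_sum (s := univ) fun j _ => kp_pos (ext_isF h 0 j)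
    | succ t ih => have := s t (by omega); have := ih (by omega); omega
  have up : ∀ r ≤ n, K (ext Ψ (n - r)) + r ≤ m + n := by
    intro r hr
    induction r with
    | zero => simp [ext, K, kp, sum_add_distrib, ← hn, add_comm]
    | succ r ih =>
      have := s (n - (r + 1)) (by omega)
      rw [show n - (r + 1) + 1 = n - r by omega] at this
      have := ih (by omega); omega
  have := up (n - t) (by omega)
  rw [show n - (n - t) = t by omega] at this
  have := lo t ht
  omega

theorem ext_fin (Ψ : Fin n → Fc d) (i : Fin n) : ext Ψ i = Ψ i := by simp [ext]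

theorem ext_congr {Ψ Φ : Fin n → Fc d} {i : Fin n} (h : Adj i Ψ Φ) (t : ℕ) (ht : t ≠ i) :
    ext Ψ t = ext Φ t := by
  unfold ext; split_ifs
  · exact h.2 _ fun e => ht (congrArg Fin.val e)
  · rfl

theorem uniq {Ψ Φ Φ' : Fin n → Fc d} (hn : n = ∑ j, d j) (h : IsFlag (CrossProd d) Ψ)
    (h1 : IsFlag (CrossProd d) Φ) (h2 : IsFlag (CrossProd d) Φ') {i : Fin n} (a1 : Adj i Ψ Φ)
    (a2 : Adj i Ψ Φ') : Φ = Φ' := by
  have k := ext_K hn h
  have k1 := ext_K hn h1 i i.2.le
  have k2 := ext_K hn h2 i i.2.le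
  have k0 := k i i.2.le
  have k3 := k (i + 1) i.2
  have := dia2 (ext_isF h (i + 1)) (ext_isF h i) (ext_isF h1 i) (ext_isF h2 i) (ext_lt h i i.2).le
    (by rw [ext_congr a1 _ (by omega)]; exact (ext_lt h1 i i.2).le)
    (by rw [ext_congr a2 _ (by omega)]; exact (ext_lt h2 i i.2).le) (by omega) (by omega) (by omega)
    (by
      by_cases e : i.val = 0
      · left; omega
      · have i2 := i.2
        have e' : i.val - 1 + 1 = i := by omega
        refine .inr ⟨ext Ψ (i - 1), ext_isF h _, ?_, ?_, ?_, ?_⟩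
        · have := (ext_lt h (i - 1) (by omega)).le; rwa [e'] at this
        · have := (ext_lt h1 (i - 1) (by omega)).le
          rwa [e', ← ext_congr a1 _ (by omega)] at this
        · have := (ext_lt h2 (i - 1) (by omega)).le
          rwa [e', ← ext_congr a2 _ (by omega)] at this
        · have := k (i - 1) (by omega); omega)
  simp only [ext_fin] at this
  rcases this with e | e | e
  · exact absurd e a1.1
  · exact absurd e a2.1
  · funext j
    by_cases hj : j = i
    · rw [hj, e]
    · rw [← a1.2 j hj, a2.2 j hj]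

def Valid (n : ℕ) (a : ℕ → ℤ) : Prop := ∀ i, i + 1 < n → a (i + 1) = a i ∨ a (i + 1) = a i - 1

noncomputable def Cv.Fl (c : Cv d n) (a : ℕ → ℤ) : Fin n → Fc d := fun i => c.F (a i) (a i + i)

theorem Valid.mono {a : ℕ → ℤ} (h : Valid n a) (i j : ℕ) (hij : i ≤ j) (hj : j < n) :
    a j ≤ a i ∧ a i + i ≤ a j + j := by
  induction j, hij using Nat.le_induction with
  | base => simp
  | succ j _ ih => have := h j hj; have := ih (by omega); push_cast; omega

theorem Cv.flag (c : Cv d n) (hn : n = ∑ j, d j) {a : ℕ → ℤ} (h : Valid n a) :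
    IsFlag (CrossProd d) (c.Fl a) := by
  have k : ∀ i : Fin n, (Pool.Agent.H.MP_7f6035_co.K (c.Fl a i) : ℤ) = m + i := fun i => by
    have := i.2
    rw [Cv.Fl, c.K (by omega) (by omega)]; ring
  refine ⟨fun i j hij => ?_, fun i => ⟨c.isF (by omega), fun e => ?_⟩⟩
  · have := h.mono i j hij.le j.2
    refine lt_of_le_of_ne (c.le this.1 this.2) fun e => ?_
    have a1 := k i
    rw [e, k] at a1
    have : i.val < j.val := hij
    omega
  · have a1 := k i
    rw [e] at a1
    simp [Pool.Agent.H.MP_7f6035_co.K, Pool.Agent.H.MP_7f6035_co.kp, sum_add_distrib] at a1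
    have := i.2
    have : (n : ℤ) = ∑ j, (d j : ℤ) := by rw [hn]; push_cast; rfl
    omega

theorem Cv.adj (c : Cv d n) {a a' : ℕ → ℤ} {i : Fin n} (e1 : a' i = a i + 1)
    (e2 : ∀ j < n, j ≠ i → a' j = a j) : Adj i (c.Fl a) (c.Fl a') := by
  refine ⟨fun e => ?_, fun j hj => ?_⟩
  · have i2 := i.2
    rw [Cv.Fl, Cv.Fl, e1] at e
    have := Int.le_of_dvd (by norm_num) (c.sep (by omega) (by omega) e)
    omega
  · rw [Cv.Fl, Cv.Fl, e2 j j.2 fun e => hj (Fin.ext e)]

def AllPar (d : Fin m → ℕ) (n : ℕ) (a : ℕ → ℤ) : Prop :=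
  ∀ Ψ, IsFlag (CrossProd d) Ψ → ∃ c : Cv d n, Ψ = c.Fl a

theorem AllPar.flip (hn : n = ∑ j, d j) {a a' : ℕ → ℤ} (h : AllPar d n a) (v : Valid n a)
    (v' : Valid n a') {i : Fin n} (e1 : a' i = a i + 1) (e2 : ∀ j < n, j ≠ i → a' j = a j) :
    AllPar d n a' := by
  intro Ψ hΨ
  obtain ⟨c, rfl⟩ := h Ψ hΨ
  obtain ⟨c', e⟩ := h _ (c.flag hn v')
  refine ⟨c', uniq hn (c.flag hn v') hΨ (c'.flag hn v') (i := i) ?_ ?_⟩
  · have := c.adj e1 e2
    exact ⟨this.1.symm, fun j hj => (this.2 j hj).symm⟩
  · rw [e]; exact c'.adj e1 e2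

theorem enum {D : ℕ} (A : ℕ → Finset (Fin D × Bool)) (v0 : Fin D × Bool) (s : ℕ) (h0 : kp (A 0) = 1)
    (hs : ∀ t < s, A t ⊆ A (t + 1) ∧ kp (A (t + 1)) ≤ kp (A t) + 1) :
    ∃ w : ℕ → Fin D × Bool, ∀ t ≤ s, A t ≠ univ → A t = (range (A t).card).image w := by
  induction s with
  | zero =>
    by_cases e : A 0 = univ
    · exact ⟨fun _ => v0, fun t ht h => absurd (by rwa [show t = 0 by omega]) h⟩
    · rw [kp, if_neg e] at h0
      obtain ⟨x, hx⟩ := card_eq_one.1 h0
      exact ⟨fun _ => x, fun t ht _ => by rw [show t = 0 by omega, hx]; simp⟩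
  | succ s ih =>
    obtain ⟨w, hw⟩ := ih fun t ht => hs t (by omega)
    obtain ⟨h1, h2⟩ := hs s (by omega)
    have sub0 : ∀ r t, t + r ≤ s → A t ⊆ A (t + r) := by
      intro r
      induction r with
      | zero => exact fun _ _ => subset_rfl
      | succ r ih2 => exact fun t ht => (ih2 t (by omega)).trans (hs (t + r) (by omega)).1
    have sub : ∀ t ≤ s, A t ⊆ A s := fun t ht => by
      have := sub0 (s - t) t (by omega)
      rwa [show t + (s - t) = s by omega] at this
    by_cases e : A (s + 1) = univ ∨ A (s + 1) = A s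
    · refine ⟨w, fun t ht h => ?_⟩
      by_cases e2 : t = s + 1
      · subst e2
        have e3 := e.resolve_left h
        rw [e3] at h ⊢
        exact hw s le_rfl h
      · exact hw t (by omega) h
    · push Not at e
      have e3 : A s ≠ univ := fun e' => e.1 (by rw [e'] at h1; exact univ_subset_iff.1 h1)
      rw [kp, kp, if_neg e.1, if_neg e3] at h2
      have := card_lt_card (ssubset_of_subset_of_ne h1 e.2.symm)
      have hc : (A (s + 1)).card = (A s).card + 1 := by omega
      obtain ⟨x, _, hx⟩ := ins h1 hc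
      have keep : ∀ t ≤ s, A t ≠ univ →
          A t = (range (A t).card).image (Function.update w (A s).card x) := by
        intro t ht h
        refine (hw t ht h).trans (image_congr fun r hr => ?_)
        have := card_le_card (sub t ht)
        rw [coe_range, Set.mem_Iio] at hr
        rw [Function.update_of_ne (by omega)]
      refine ⟨Function.update w (A s).card x, fun t ht h => ?_⟩
      by_cases e2 : t = s + 1
      · subst e2
        rw [hc, range_add_one, image_insert, Function.update_self, ← keep s le_rfl e3, hx]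
      · exact keep t (by omega) h

theorem factor {D : ℕ} (hD : 0 < D) (A : ℕ → Finset (Fin D × Bool)) (s : ℕ)
    (hF : ∀ t, CrossFace D (A t)) (h0 : kp (A 0) = 1) (h1 : kp (A s) = D + 1)
    (hs : ∀ t < s, A t ⊆ A (t + 1) ∧ kp (A (t + 1)) ≤ kp (A t) + 1) :
    ∃ u, Sq D u ∧ ∀ t ≤ s, A t = f u 0 (kp (A t) - 1) := by
  obtain ⟨w, hw⟩ := enum A (⟨0, hD⟩, true) s h0 hs
  obtain ⟨t0, ht0, e0⟩ : ∃ t ≤ s, kp (A t) = D := by
    by_contra hc
    push Not at hc
    have : ∀ t ≤ s, kp (A t) < D := by
      intro t ht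
      induction t with
      | zero => have := hc 0 ht; omega
      | succ t ih => have := hc _ ht; have := ih (by omega); have := (hs t (by omega)).2; omega
    have := this s le_rfl
    omega
  have nu : A t0 ≠ univ := fun e => by simp [kp, e] at e0
  rw [kp, if_neg nu] at e0
  have im := hw t0 ht0 nu
  rw [e0] at im
  have inj : ∀ r < D, ∀ r' < D, (w r).1 = (w r').1 → r = r' := by
    intro r hr r' hr' e
    have i1 : Set.InjOn w (range D : Finset ℕ) := by
      rw [← card_image_iff, ← im, e0, card_range]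
    refine i1 (by simpa using hr) (by simpa using hr') (((hF t0).na nu).inj ?_ ?_ e)
    · rw [im]; exact mem_image_of_mem w (mem_range.2 hr)
    · rw [im]; exact mem_image_of_mem w (mem_range.2 hr')
  have hD' : (0 : ℤ) < D := by omega
  have md : ∀ r r' : ℤ, (w (r % D).toNat).1 = (w (r' % D).toNat).1 → r % D = r' % D := by
    intro r r' e
    have a1 := Int.emod_nonneg r hD'.ne'
    have a2 := Int.emod_lt_of_pos r hD'
    have a3 := Int.emod_nonneg r' hD'.ne'
    have a4 := Int.emod_lt_of_pos r' hD'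
    have := inj _ (by omega) _ (by omega) e
    omega
  refine ⟨fun r => ((w (r % D).toNat).1, xor (w (r % D).toNat).2 (decide (r / D % 2 = 1))),
    ⟨hD, fun r r' e => Int.ModEq.dvd (md r r' e).symm, fun r r' e => ?_, fun r => ?_⟩,
    fun t ht => ?_⟩
  · have e1 := md r r' (Prod.mk.inj e).1
    have e2 := (Prod.mk.inj e).2
    simp only [e1, Bool.xor_right_inj, decide_eq_decide] at e2
    have a1 := Int.mul_ediv_add_emod r D
    have a2 := Int.mul_ediv_add_emod r' D
    obtain ⟨k, hk⟩ : ∃ k, r / D - r' / D = 2 * k := ⟨(r / D - r' / D) / 2, by omega⟩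
    exact ⟨k, by rw [← a1, ← a2, e1]; linear_combination (D : ℤ) * hk⟩
  · simp only [Int.add_mul_emod_self_right, Int.add_mul_ediv_right _ _ hD'.ne']
    rw [show (r / D + 2) % 2 = r / D % 2 by omega]
  · unfold f
    have p := kp_pos (hF t)
    split_ifs with e
    · by_contra nu
      have := ((hF t).na nu).card
      rw [kp, if_neg nu] at e
      omega
    · have nu : A t ≠ univ := fun e' => by simp [kp, e'] at e
      rw [kp, if_neg nu] at e p ⊢
      refine (hw t ht nu).trans ?_
      ext x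
      simp only [mem_image, mem_range, mem_Icc]
      have val : ∀ r : ℕ, r < D → (((w ((r : ℤ) % D).toNat).1,
          xor (w ((r : ℤ) % D).toNat).2 (decide ((r : ℤ) / D % 2 = 1))) : Fin D × Bool) = w r := by
        intro r hr
        rw [Int.emod_eq_of_lt (by omega) (by omega), Int.ediv_eq_zero_of_lt (by omega) (by omega)]
        simp
      constructor
      · rintro ⟨r, hr, rfl⟩
        exact ⟨r, ⟨by omega, by omega⟩, val r (by omega)⟩
      · rintro ⟨r, hr, rfl⟩
        obtain ⟨r, rfl⟩ := Int.eq_ofNat_of_zero_le hr.1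
        exact ⟨r, by omega, (val r (by omega)).symm⟩

theorem par0 (hn : n = ∑ j, d j) (hd : ∀ j, 0 < d j) (h0 : 0 < n) : AllPar d n fun _ => 0 := by
  intro Ψ h
  have k := ext_K hn h
  have one : ∀ j, kp (ext Ψ 0 j) = 1 := fun j =>
    ((sum_eq_sum_iff_of_le (f := fun _ => 1) fun l _ => kp_pos (ext_isF h 0 l)).1
      (by simpa [K] using (k 0 (by omega)).symm) j (mem_univ _)).symm
  have top : ∀ j, kp (ext Ψ n j) = d j + 1 := fun j => by simp [ext, kp]
  have st : ∀ j, ∀ t < n, kp (ext Ψ (t + 1) j) = kp (ext Ψ t j) ∨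
      kp (ext Ψ (t + 1) j) = kp (ext Ψ t j) + 1 := by
    intro j t ht
    obtain ⟨l, a, b⟩ := cover (ext_isF h t) (ext_lt h t ht).le
      (by rw [k _ ht, k _ ht.le]; rfl)
    by_cases e : j = l
    · subst e; exact .inr a
    · exact .inl (by rw [b j e])
  choose u hu e using fun j => factor (hd j) (fun t => ext Ψ t j) n (fun t => ext_isF h t j) (one j)
    (top j) fun t ht => ⟨(ext_lt h t ht).le j, by have := st j t ht; omega⟩
  have hn' : (0 : ℤ) < n := by omega
  refine ⟨⟨fun j s => d j * (s / n) + kp (ext Ψ (s % n).toNat j) - 1, u, hu, ?_, ?_, ?_⟩, ?_⟩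
  · intro j s
    have a1 := Int.emod_nonneg s hn'.ne'
    have a2 := Int.emod_lt_of_pos s hn'
    have a3 := Int.mul_ediv_add_emod s n
    have := st j (s % n).toNat (by omega)
    by_cases c : s % n + 1 < n
    · obtain ⟨b1, b2⟩ := (Int.ediv_emod_unique (a := s + 1) (r := s % n + 1) (q := s / n) hn').2
        ⟨by linarith, by omega, c⟩
      rw [b1, b2, show (s % n + 1).toNat = (s % n).toNat + 1 by omega]
      omega
    · obtain ⟨b1, b2⟩ := (Int.ediv_emod_unique (a := s + 1) (r := 0) (q := s / n + 1) hn').2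
        ⟨by linarith, le_rfl, hn'⟩
      rw [show (s % n).toNat + 1 = n by omega, top] at this
      rw [b1, b2, mul_add, Int.toNat_zero, one]
      omega
  · intro s
    have a1 := Int.emod_nonneg s hn'.ne'
    have a2 := Int.emod_lt_of_pos s hn'
    have a3 := Int.mul_ediv_add_emod s n
    have a4 := congrArg (Nat.cast : ℕ → ℤ) (k (s % n).toNat (by omega))
    have a5 : (n : ℤ) = ∑ j, (d j : ℤ) := by rw [hn]; push_cast; rfl
    unfold K at a4
    push_cast at a4
    rw [sum_sub_distrib, sum_add_distrib, ← sum_mul, ← a5, a4]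
    simp only [sum_const, card_univ, Fintype.card_fin, nsmul_eq_mul, mul_one]
    omega
  · intro j s
    rw [Int.add_emod_right, Int.add_ediv_of_dvd_right dvd_rfl, Int.ediv_self hn'.ne']
    ring
  · funext i j
    have i2 := i.2
    have := e j i i.2.le
    simp only [ext_fin] at this
    simp only [Cv.Fl, Cv.F, zero_add, Int.zero_ediv, Int.zero_emod, Int.toNat_zero, one]
    rw [Int.emod_eq_of_lt (by omega) (by omega), Int.ediv_eq_zero_of_lt (by omega) (by omega),
      Int.toNat_natCast, ext_fin]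
    simpa using this

theorem parAll (hn : n = ∑ j, d j) (hd : ∀ j, 0 < d j) (h0 : 0 < n) (S : ℕ) :
    ∀ t : ℕ → ℤ, Valid n t → (∀ i < n, 0 ≤ t i) → ∑ i ∈ range n, t i = S → AllPar d n t := by
  induction S with
  | zero =>
    intro t _ h1 h2 Ψ hΨ
    obtain ⟨c, e⟩ := par0 hn hd h0 Ψ hΨ
    refine ⟨c, e.trans (funext fun i => ?_)⟩
    have := (sum_eq_zero_iff_of_nonneg fun i hi => h1 i (mem_range.1 hi)).1 h2 i (mem_range.2 i.2)
    simp only [Cv.Fl, this]
  | succ S ih =>
    intro t v h1 h2
    have t0 : 0 < t 0 := by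
      by_contra hc
      have : ∑ i ∈ range n, t i ≤ 0 :=
        sum_nonpos fun i hi => by have := (v.mono 0 i (by omega) (mem_range.1 hi)).1; omega
      omega
    obtain ⟨i, hi, hm⟩ := exists_max_image ((range n).filter fun i => t i = t 0) id
      ⟨0, by simpa using h0⟩
    simp only [mem_filter, mem_range, id, and_imp] at hi hm
    refine (ih (Function.update t i (t i - 1)) ?_ ?_ ?_).flip hn ?_ v (i := ⟨i, hi.1⟩) ?_ ?_
    rotate_left
    · intro j hj
      by_cases e : j = i
      · rw [e, Function.update_self]; omega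
      · rw [Function.update_of_ne e]; exact h1 j hj
    · rw [sum_update_of_mem (mem_range.2 hi.1)]
      rw [← add_sum_erase _ _ (mem_range.2 hi.1), erase_eq] at h2
      omega
    rotate_left
    · simp
    · intro j _ e; rw [Function.update_of_ne e]
    all_goals
      intro j hj
      have a := v j hj
      by_cases e : j = i
      · subst e
        have := hm (j + 1) hj
        rw [Function.update_self, Function.update_of_ne (by omega)]; omega
      by_cases e' : j + 1 = i
      · subst e'
        have := (v.mono 0 j (by omega) (by omega)).1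
        rw [Function.update_self, Function.update_of_ne (by omega)]; omega
      · rwa [Function.update_of_ne e, Function.update_of_ne e']

def shp (n : ℕ) (p : ℕ → ℕ) : ℕ → ℤ
  | 0 => n
  | i + 1 => if p i < p (i + 1) then shp n p i else shp n p i - 1

theorem partA (d : Fin m → ℕ) (hd : ∀ j, 0 < d j) : Acoptic (CrossProd d) (∑ j, d j) := by
  generalize hn : ∑ j, d j = n
  replace hn := hn.symm
  rintro σ Ψ Φ hT ⟨i, j, hij⟩
  have h0 : 0 < n := i.pos
  let p : ℕ → ℕ := fun i => if h : i < n then (σ.symm ⟨i, h⟩).val else 0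
  let a : ℤ → ℕ → ℕ → ℤ := fun k t i => shp n p i + k + if p i < t then 1 else 0
  have va : ∀ k t, Valid n (a k t) := by
    intro k t i _
    simp only [a, shp]
    split_ifs <;> omega
  have lo : ∀ i : ℕ, (n : ℤ) - i ≤ shp n p i := by
    intro i
    induction i with
    | zero => simp [shp]
    | succ i ih => rw [shp]; split_ifs <;> push_cast <;> omega
  have nn : ∀ i < n, 0 ≤ a 0 0 i := fun i hi => by have := lo i; simp only [a]; split_ifs <;> omega
  have hP := parAll hn hd h0 (∑ i ∈ range n, a 0 0 i).toNat (a 0 0) (va 0 0) nn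
    (Int.toNat_of_nonneg (sum_nonneg fun i hi => nn i (mem_range.1 hi))).symm
  have step : ∀ (c : Cv d n) k X Y, Step (CrossProd d) σ X Y → X = c.Fl (a k 0) →
      Y = c.Fl (a (k + 1) 0) := by
    rintro c k _ _ ⟨g, rfl, rfl, g1, g2⟩ e
    have : ∀ t ≤ n, g t = c.Fl (a k t) := by
      intro t ht
      induction t with
      | zero => exact e
      | succ t ih =>
        have b := g2 ⟨t, ht⟩
        have pt : p (σ ⟨t, ht⟩) = t := by simp [p]
        refine uniq hn (g1 t (by omega)) (g1 _ ht) (c.flag hn (va k _)) b ?_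
        rw [ih (by omega)]
        refine c.adj (by simp [a, pt]) fun l hl hne => ?_
        have : p l ≠ t := by
          intro e
          simp only [p, dif_pos hl] at e
          refine hne (congrArg Fin.val (σ.symm_apply_eq.1 (Fin.ext e : σ.symm ⟨l, hl⟩ = ⟨t, ht⟩)))
        simp only [a]
        split_ifs <;> omega
    rw [this n le_rfl]
    funext l
    have : p l < n := by simp [p]
    simp only [Cv.Fl, a, this, if_true, Nat.not_lt_zero, if_false, add_zero, add_assoc]
  have hΨ : IsFlag (CrossProd d) Ψ := by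
    obtain ⟨_, ⟨g, rfl, _, g1, _⟩, _⟩ := Relation.TransGen.head'_iff.1 hT
    exact g1 0 (by omega)
  obtain ⟨c, e⟩ := hP Ψ hΨ
  obtain ⟨k, hk⟩ : ∃ k : ℤ, Φ = c.Fl (a k 0) := by
    clear hij
    induction hT with
    | single h => exact ⟨_, step c 0 _ _ h e⟩
    | tail _ h ih => obtain ⟨k, hk⟩ := ih; exact ⟨_, step c k _ _ h hk⟩
  subst e hk
  have i2 := i.2
  have j2 := j.2
  have k1 := c.K (a := a 0 0 i) (b := a 0 0 i + i) (by omega) (by omega)
  have k2 := c.K (a := a k 0 j) (b := a k 0 j + j) (by omega) (by omega)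
  simp only [Cv.Fl] at hij
  rw [hij, k2] at k1
  obtain rfl : i = j := Fin.ext (by omega)
  have ak : ∀ l, a k 0 l = a 0 0 l + k := fun l => by simp [a]
  rw [ak] at hij
  obtain ⟨r, hr⟩ := c.sep (by omega) (by omega) hij
  funext l
  simp only [Cv.Fl]
  rw [ak, hr, ← c.per _ _ r]
  congr 1; ring

end Pool.Agent.H.MP_7f6035_co
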