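import Pool.Agent.H.MP_7f6035_co.Defs

namespace Pool.Agent.H.MP_7f6035_co

open Finset

def tab : List (List (List (Fin 2 × Bool) × List (ZMod 8))) :=
  [[([(0, false)], [0]), ([(0, false)], [0, 1]), ([(0, false)], [0, 1, 2, 3, 4, 5, 6, 7]), ([(0, false), (1, false)], [0, 1, 2, 3, 4, 5, 6, 7])],
   [([(0, false)], [1]), ([(0, false)], [0, 1]), ([(0, false)], [0, 1, 2, 3, 4, 5, 6, 7]), ([(0, false), (1, false)], [0, 1, 2, 3, 4, 5, 6, 7])],
   [([(0, false)], [1]), ([(0, false)], [1, 2]), ([(0, false)], [0, 1, 2, 3, 4, 5, 6, 7]), ([(0, false), (1, false)], [0, 1, 2, 3, 4, 5, 6, 7])],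
   [([(0, false)], [1]), ([(0, false)], [1, 2]), ([(0, false), (1, false)], [1, 2]), ([(0, false), (1, false)], [0, 1, 2, 3, 4, 5, 6, 7])],
   [([(0, false)], [1]), ([(0, false)], [1, 2]), ([(0, false), (1, false)], [1, 2]), ([(0, false), (0, true), (1, false), (1, true)], [1, 2])],
   [([(0, false)], [2]), ([(0, false)], [1, 2]), ([(0, false), (1, false)], [1, 2]), ([(0, false), (0, true), (1, false), (1, true)], [1, 2])],
   [([(0, false)], [2]), ([(0, false), (1, false)], [2]), ([(0, false), (1, false)], [1, 2]), ([(0, false), (0, true), (1, false), (1, true)], [1, 2])],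
   [([(0, false)], [2]), ([(0, false), (1, false)], [2]), ([(0, false), (0, true), (1, false), (1, true)], [2]), ([(0, false), (0, true), (1, false), (1, true)], [1, 2])],
   [([(0, false)], [2]), ([(0, false), (1, false)], [2]), ([(0, false), (0, true), (1, false), (1, true)], [2]), ([(0, false), (0, true), (1, false), (1, true)], [2, 3])],
   [([(1, false)], [2]), ([(0, false), (1, false)], [2]), ([(0, false), (0, true), (1, false), (1, true)], [2]), ([(0, false), (0, true), (1, false), (1, true)], [2, 3])],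
   [([(1, false)], [2]), ([(0, true), (1, false)], [2]), ([(0, false), (0, true), (1, false), (1, true)], [2]), ([(0, false), (0, true), (1, false), (1, true)], [2, 3])],
   [([(1, false)], [2]), ([(0, true), (1, false)], [2]), ([(0, true), (1, false)], [2, 3]), ([(0, false), (0, true), (1, false), (1, true)], [2, 3])],
   [([(1, false)], [2]), ([(0, true), (1, false)], [2]), ([(0, true), (1, false)], [2, 3]), ([(0, true), (1, false)], [0, 1, 2, 3, 4, 5, 6, 7])],
   [([(0, true)], [2]), ([(0, true), (1, false)], [2]), ([(0, true), (1, false)], [2, 3]), ([(0, true), (1, false)], [0, 1, 2, 3, 4, 5, 6, 7])],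
   [([(0, true)], [2]), ([(0, true)], [2, 3]), ([(0, true), (1, false)], [2, 3]), ([(0, true), (1, false)], [0, 1, 2, 3, 4, 5, 6, 7])],
   [([(0, true)], [2]), ([(0, true)], [2, 3]), ([(0, true)], [0, 1, 2, 3, 4, 5, 6, 7]), ([(0, true), (1, false)], [0, 1, 2, 3, 4, 5, 6, 7])],
   [([(0, true)], [2]), ([(0, true)], [2, 3]), ([(0, true)], [0, 1, 2, 3, 4, 5, 6, 7]), ([(0, true), (1, true)], [0, 1, 2, 3, 4, 5, 6, 7])],
   [([(0, true)], [3]), ([(0, true)], [2, 3]), ([(0, true)], [0, 1, 2, 3, 4, 5, 6, 7]), ([(0, true), (1, true)], [0, 1, 2, 3, 4, 5, 6, 7])],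
   [([(0, true)], [3]), ([(0, true)], [3, 4]), ([(0, true)], [0, 1, 2, 3, 4, 5, 6, 7]), ([(0, true), (1, true)], [0, 1, 2, 3, 4, 5, 6, 7])],
   [([(0, true)], [3]), ([(0, true)], [3, 4]), ([(0, true), (1, true)], [3, 4]), ([(0, true), (1, true)], [0, 1, 2, 3, 4, 5, 6, 7])],
   [([(0, true)], [3]), ([(0, true)], [3, 4]), ([(0, true), (1, true)], [3, 4]), ([(0, false), (0, true), (1, false), (1, true)], [3, 4])],
   [([(0, true)], [4]), ([(0, true)], [3, 4]), ([(0, true), (1, true)], [3, 4]), ([(0, false), (0, true), (1, false), (1, true)], [3, 4])],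
   [([(0, true)], [4]), ([(0, true), (1, true)], [4]), ([(0, true), (1, true)], [3, 4]), ([(0, false), (0, true), (1, false), (1, true)], [3, 4])],
   [([(0, true)], [4]), ([(0, true), (1, true)], [4]), ([(0, false), (0, true), (1, false), (1, true)], [4]), ([(0, false), (0, true), (1, false), (1, true)], [3, 4])],
   [([(0, true)], [4]), ([(0, true), (1, true)], [4]), ([(0, false), (0, true), (1, false), (1, true)], [4]), ([(0, false), (0, true), (1, false), (1, true)], [4, 5])],
   [([(1, true)], [4]), ([(0, true), (1, true)], [4]), ([(0, false), (0, true), (1, false), (1, true)], [4]), ([(0, false), (0, true), (1, false), (1, true)], [4, 5])],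
   [([(1, true)], [4]), ([(0, false), (1, true)], [4]), ([(0, false), (0, true), (1, false), (1, true)], [4]), ([(0, false), (0, true), (1, false), (1, true)], [4, 5])],
   [([(1, true)], [4]), ([(0, false), (1, true)], [4]), ([(0, false), (1, true)], [4, 5]), ([(0, false), (0, true), (1, false), (1, true)], [4, 5])],
   [([(1, true)], [4]), ([(0, false), (1, true)], [4]), ([(0, false), (1, true)], [4, 5]), ([(0, false), (1, true)], [0, 1, 2, 3, 4, 5, 6, 7])],
   [([(0, false)], [4]), ([(0, false), (1, true)], [4]), ([(0, false), (1, true)], [4, 5]), ([(0, false), (1, true)], [0, 1, 2, 3, 4, 5, 6, 7])],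
   [([(0, false)], [4]), ([(0, false)], [4, 5]), ([(0, false), (1, true)], [4, 5]), ([(0, false), (1, true)], [0, 1, 2, 3, 4, 5, 6, 7])],
   [([(0, false)], [4]), ([(0, false)], [4, 5]), ([(0, false)], [0, 1, 2, 3, 4, 5, 6, 7]), ([(0, false), (1, true)], [0, 1, 2, 3, 4, 5, 6, 7])],
   [([(0, false)], [4]), ([(0, false)], [4, 5]), ([(0, false)], [0, 1, 2, 3, 4, 5, 6, 7]), ([(0, false), (1, false)], [0, 1, 2, 3, 4, 5, 6, 7])]]

def fl (t : ℕ) : Fin 4 → Finset (Fin 2 × Bool) × Finset (ZMod 8) := fun i =>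
  (((tab.getD t []).getD i ([], [])).1.toFinset, ((tab.getD t []).getD i ([], [])).2.toFinset)

def lt2 (x y : Finset (Fin 2 × Bool) × Finset (ZMod 8)) : Bool :=
  decide ((x.1 ⊆ y.1 ∧ x.2 ⊆ y.2) ∧ x ≠ y)

def eq2 (x y : Finset (Fin 2 × Bool) × Finset (ZMod 8)) : Bool := decide (x = y)

theorem fl1' : ∀ t < 33, ∀ i j : Fin 4, i < j → lt2 (fl t i) (fl t j) = true := by decide +kernel

theorem fl1 : ∀ t < 33, ∀ i j : Fin 4, i < j →
    ((fl t i).1 ⊆ (fl t j).1 ∧ (fl t i).2 ⊆ (fl t j).2) ∧ fl t i ≠ fl t j :=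
  fun t ht i j h => of_decide_eq_true (fl1' t ht i j h)

theorem fl2 : ∀ t < 33, ∀ i : Fin 4, (fl t i).1 = univ ∨ ((fl t i).1.Nonempty ∧
    ∀ l, ¬ ((l, true) ∈ (fl t i).1 ∧ (l, false) ∈ (fl t i).1)) := by decide +kernel

theorem fl3 : ∀ t < 33, ∀ i : Fin 4, ((fl t i).2 = univ ∨ ∃ l, (fl t i).2 = {l} ∨
    (fl t i).2 = {l, l + 1}) ∧ fl t i ≠ (univ, univ) := by decide +kernel

theorem fl4' : ∀ s < 8, ∀ i j : Fin 4,
    eq2 (fl (4 * s + i) j) (fl (4 * s + (i + 1)) j) = decide (j ≠ i) := by decide +kernel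

theorem fl4 : ∀ s < 8, ∀ i : Fin 4, fl (4 * s + i) i ≠ fl (4 * s + (i + 1)) i ∧
    ∀ j, j ≠ i → fl (4 * s + i) j = fl (4 * s + (i + 1)) j := fun s hs i =>
  ⟨by simpa [eq2] using fl4' s hs i i, fun j hj => by simpa [eq2, hj] using fl4' s hs i j⟩

theorem partB : ¬ Acoptic SqOct 4 := by
  intro h
  have st : ∀ s < 8, Step SqOct 1 (fl (4 * s)) (fl (4 * (s + 1))) := fun s hs =>
    ⟨fun t => fl (4 * s + t), rfl, rfl, fun t ht =>
      ⟨fun i j hij => lt_of_le_of_ne (fl1 _ (by omega) i j hij).1 (fl1 _ (by omega) i j hij).2,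
        fun i => ⟨fl2 _ (by omega) i, fl3 _ (by omega) i⟩⟩, fun t => fl4 s hs t⟩
  have tg : ∀ s < 8, Relation.TransGen (Step SqOct 1) (fl 0) (fl (4 * (s + 1))) := by
    intro s hs
    induction s with
    | zero => exact .single (st 0 hs)
    | succ s ih => exact .tail (ih (by omega)) (st _ hs)
  exact absurd (h 1 _ _ (tg 7 (by omega)) ⟨2, 2, by decide +kernel⟩) (by decide +kernel)

end Pool.Agent.H.MP_7f6035_co
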