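import Mathlib

namespace Pool.Agent.H.MP_7f6035_co

open Finset

/-- A flag of a rank `n` polytope whose proper faces form the subset `P` of a poset: a strictly
increasing chain of `n` proper faces. -/
def IsFlag {α : Type} [PartialOrder α] (P : Set α) {n : ℕ} (Ψ : Fin n → α) : Prop :=
  StrictMono Ψ ∧ ∀ i, Ψ i ∈ P

/-- `Φ` differs from `Ψ` exactly in the face of rank `i`. -/
def Adj {α : Type} {n : ℕ} (i : Fin n) (Ψ Φ : Fin n → α) : Prop :=
  Ψ i ≠ Φ i ∧ ∀ j, j ≠ i → Ψ j = Φ j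

/-- `Φ = Ψ γ` for `γ = γ_{σ 0} γ_{σ 1} ⋯ γ_{σ (n-1)}`. -/
def Step {α : Type} [PartialOrder α] (P : Set α) {n : ℕ} (σ : Equiv.Perm (Fin n))
    (Ψ Φ : Fin n → α) : Prop :=
  ∃ c : ℕ → Fin n → α, c 0 = Ψ ∧ c n = Φ ∧ (∀ t ≤ n, IsFlag P (c t)) ∧
    ∀ t : Fin n, Adj (σ t) (c t) (c (t + 1))

/-- All Petrie schemes are acoptic: two flags `Ψ`, `Ψ γ^k` (`k ≥ 1`) with a common proper face are
equal. -/
def Acoptic {α : Type} [PartialOrder α] (P : Set α) (n : ℕ) : Prop :=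
  ∀ (σ : Equiv.Perm (Fin n)) (Ψ Φ : Fin n → α), Relation.TransGen (Step P σ) Ψ Φ →
    (∃ i j, Ψ i = Φ j) → Ψ = Φ

/-- Nonempty faces (as vertex sets) of the `d`-crosspolytope with vertices `± e_i`. -/
def CrossFace (d : ℕ) (S : Finset (Fin d × Bool)) : Prop :=
  S = univ ∨ (S.Nonempty ∧ ∀ i, ¬ ((i, true) ∈ S ∧ (i, false) ∈ S))

/-- Proper faces of the Cartesian product of crosspolytopes of dimensions `d j`. -/
def CrossProd {m : ℕ} (d : Fin m → ℕ) : Set (∀ j, Finset (Fin (d j) × Bool)) :=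
  {S | (∀ j, CrossFace (d j) (S j)) ∧ S ≠ fun _ => univ}

/-- Nonempty faces (as vertex sets) of the octagon. -/
def OctFace (T : Finset (ZMod 8)) : Prop := T = univ ∨ ∃ i, T = {i} ∨ T = {i, i + 1}

/-- Proper faces of the product of the square (the 2-crosspolytope, i.e. the 2-cube) and the
octagon. -/
def SqOct : Set (Finset (Fin 2 × Bool) × Finset (ZMod 8)) :=
  {S | CrossFace 2 S.1 ∧ OctFace S.2 ∧ S ≠ (univ, univ)}

/-- Gram matrix of the unit normals of the four mirrors for the Schläfli symbol `{p, q, r}`. -/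
noncomputable def gram (s : ℝ × ℝ × ℝ) : Matrix (Fin 4) (Fin 4) ℝ :=
  !![1, -Real.cos (Real.pi / s.1), 0, 0;
     -Real.cos (Real.pi / s.1), 1, -Real.cos (Real.pi / s.2.1), 0;
     0, -Real.cos (Real.pi / s.2.1), 1, -Real.cos (Real.pi / s.2.2);
     0, 0, -Real.cos (Real.pi / s.2.2), 1]

/-- The generating reflection `ρ_i : x ↦ x - 2 ⟨α_i, x⟩ α_i` in the basis of the normals. -/
noncomputable def refl (s : ℝ × ℝ × ℝ) (i : Fin 4) : Matrix (Fin 4) (Fin 4) ℝ :=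
  Matrix.of fun k l => (if k = l then 1 else 0) - (if k = i then 2 * gram s i l else 0)

/-- Acopticity for the regular 4-polytope `{p, q, r}` in the group model: flags are the elements
`g` of the group, the `i`-adjacent flag is `g ρ_i`, the `i`-face is the coset `g Γ_i` with
`Γ_i = ⟨ρ_j : j ≠ i⟩`. -/
def StarAcoptic (s : ℝ × ℝ × ℝ) : Prop :=
  ∀ (σ : Equiv.Perm (Fin 4)) (k : ℕ) (i : Fin 4),
    (refl s (σ 0) * refl s (σ 1) * refl s (σ 2) * refl s (σ 3)) ^ k ∈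
        Submonoid.closure {A | ∃ j, j ≠ i ∧ A = refl s j} →
      (refl s (σ 0) * refl s (σ 1) * refl s (σ 2) * refl s (σ 3)) ^ k = 1

/-- Schläfli symbols of the ten regular star 4-polytopes. -/
noncomputable def hess : List (ℝ × ℝ × ℝ) :=
  [(3, 5, 5 / 2), (5 / 2, 5, 3), (5, 5 / 2, 5), (5, 3, 5 / 2), (5 / 2, 3, 5), (5 / 2, 5, 5 / 2),
    (5, 5 / 2, 3), (3, 5 / 2, 5), (3, 3, 5 / 2), (5 / 2, 3, 3)]

end Pool.Agent.H.MP_7f6035_co
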