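import Pool.Agent.H.MP_7f6035_co.Defs

namespace Pool.Agent.H.MP_7f6035_co

open Finset

abbrev Zp := ℤ × ℤ
abbrev V4 := Zp × Zp × Zp × Zp

def mulp (x y : Zp) : Zp := (x.1 * y.1 + x.2 * y.2, x.1 * y.2 + x.2 * y.1 + x.2 * y.2)
def get (v : V4) : Fin 4 → Zp := ![v.1, v.2.1, v.2.2.1, v.2.2.2]
def g2 (c : Zp × Zp × Zp) : Fin 4 → Fin 4 → Zp :=
  ![![(2, 0), -c.1, 0, 0], ![-c.1, (2, 0), -c.2.1, 0], ![0, -c.2.1, (2, 0), -c.2.2],
    ![0, 0, -c.2.2, (2, 0)]]
def rf (c : Zp × Zp × Zp) (j : Fin 4) : V4 → V4 := fun (a, b, x, y) =>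
  match j with
  | 0 => (-a, b + mulp a c.1, x, y)
  | 1 => (a + mulp b c.1, -b, x + mulp b c.2.1, y)
  | 2 => (a, b + mulp x c.2.1, -x, y + mulp x c.2.2)
  | 3 => (a, b, x + mulp y c.2.2, -y)
def un (i : Fin 4) : V4 :=
  (if i = 0 then (1, 0) else 0, if i = 1 then (1, 0) else 0, if i = 2 then (1, 0) else 0,
    if i = 3 then (1, 0) else 0)
def run (g : V4 → V4) (e : V4) : ℕ → V4 → Bool
  | 0, v => v == e
  | k + 1, v => v != e && run g e k (g v)
def stp (c : Zp × Zp × Zp) (a b x y : Fin 4) (v : V4) : V4 := rf c y (rf c x (rf c b (rf c a v)))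
def okI (c : Zp × Zp × Zp) (o : ℕ) (a b x y : Fin 4) : Bool :=
  decide (∀ i, run (stp c a b x y) (un i) o (stp c a b x y (un i)) = true)
def Ok (c : Zp × Zp × Zp) (o : ℕ) : Prop :=
  ∀ a b x y : Fin 4, [a, b, x, y].Nodup → okI c o a b x y = true

theorem run_spec (g : V4 → V4) (e : V4) (k : ℕ) : ∀ v, run g e k v = true →
    g^[k] v = e ∧ ∀ j < k, g^[j] v ≠ e := by
  induction k with
  | zero => intro v h; exact ⟨by simpa [run] using h, fun j hj => absurd hj (by omega)⟩
  | succ k ih =>
    intro v h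
    simp only [run, Bool.and_eq_true, bne_iff_ne] at h
    obtain ⟨a, b⟩ := ih _ h.2
    refine ⟨a, fun j hj => ?_⟩
    cases j with
    | zero => exact h.1
    | succ j => exact b j (by omega)

noncomputable def ev (x : Zp) : ℝ := x.1 + x.2 * Real.goldenRatio

theorem ev_mul (x y : Zp) : ev (mulp x y) = ev x * ev y := by
  simp only [ev, mulp]; push_cast
  linear_combination (-(x.2 : ℝ) * y.2) * Real.goldenRatio_sq

theorem ev_inj : Function.Injective ev := by
  rintro ⟨a, b⟩ ⟨c, e⟩ h
  simp only [ev] at h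
  by_cases hb : b = e
  · subst hb
    have : (a : ℝ) = c := by linarith
    rw [Int.cast_injective this]
  · exfalso
    have h1 : ((b - e : ℤ) : ℝ) * Real.goldenRatio = ((c - a : ℤ) : ℝ) := by push_cast; linarith
    exact (Real.goldenRatio_irrational.intCast_mul (sub_ne_zero.2 hb)).ne_int _ h1

theorem star (s : ℝ × ℝ × ℝ) (c : Zp × Zp × Zp) (o : ℕ)
    (h1 : ev c.1 = 2 * Real.cos (Real.pi / s.1)) (h2 : ev c.2.1 = 2 * Real.cos (Real.pi / s.2.1))
    (h3 : ev c.2.2 = 2 * Real.cos (Real.pi / s.2.2)) (hok : Ok c o) : StarAcoptic s := by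
  have en : ∀ x, ev (-x) = -ev x := fun x => by simp [ev]; ring
  have es : ∀ x y, ev (x - y) = ev x - ev y := fun x y => by simp [ev]; ring
  have hg : ∀ j l, ev (g2 c j l) = 2 * gram s j l := by
    intro j l
    fin_cases j <;> fin_cases l <;> simp [g2, gram, en, h1, h2, h3] <;> simp [ev]
  have hr : ∀ j v, Matrix.vecMul (fun l => ev (get v l)) (refl s j) = fun l => ev (get (rf c j v) l) := by
    intro j v
    funext l
    have : get (rf c j v) l = get v l - mulp (get v j) (g2 c j l) := by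
      obtain ⟨a, b, x, y⟩ := v
      fin_cases j <;> fin_cases l <;> simp [get, rf, g2, mulp, Prod.ext_iff] <;> constructor <;> ring
    rw [this, es, ev_mul, hg]
    simp [Matrix.vecMul, dotProduct, refl, mul_sub, sum_sub_distrib]
  have hu : ∀ i, (fun l => ev (get (un i) l)) = Pi.single i 1 := by
    intro i; funext l
    fin_cases i <;> fin_cases l <;> simp [get, un, ev]
  intro σ k i hk
  set H := refl s (σ 0) * refl s (σ 1) * refl s (σ 2) * refl s (σ 3) with hH
  set g := stp c (σ 0) (σ 1) (σ 2) (σ 3) with hgd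
  have hp : ∀ k v, Matrix.vecMul (fun l => ev (get v l)) (H ^ k) = fun l => ev (get (g^[k] v) l) := by
    intro k
    induction k with
    | zero => intro v; simp
    | succ k ih =>
      intro v
      rw [pow_succ', ← Matrix.vecMul_vecMul, Function.iterate_succ_apply, ← ih, hH]
      simp only [← Matrix.vecMul_vecMul, hr]
      rfl
  have ok := of_decide_eq_true (hok (σ 0) (σ 1) (σ 2) (σ 3) (by simp))
  have ho : H ^ (o + 1) = 1 := by
    ext a l
    have := congrFun (hp (o + 1) (un a)) l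
    rw [Function.iterate_succ_apply, (run_spec _ _ _ _ (ok a)).1, hu, Matrix.single_one_vecMul] at this
    rw [Matrix.one_apply]
    refine this.trans ?_
    rw [congrFun (hu a) l, Pi.single_apply]
    simp only [eq_comm]
  have fx : ∀ A ∈ Submonoid.closure {A | ∃ j, j ≠ i ∧ A = refl s j},
      Matrix.vecMul (Pi.single i 1) A = Pi.single i 1 := by
    intro A hA
    induction hA using Submonoid.closure_induction with
    | mem A h =>
      obtain ⟨j, hj, rfl⟩ := h
      funext l
      simp [refl, hj.symm, Pi.single_apply, eq_comm]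
    | one => simp
    | mul A B _ _ a b => rw [← Matrix.vecMul_vecMul, a, b]
  have red : H ^ k = H ^ (k % (o + 1)) := by
    conv_lhs => rw [← Nat.div_add_mod k (o + 1), pow_add, pow_mul, ho, one_pow, one_mul]
  have f1 := fx _ hk
  rw [red] at f1 ⊢
  have lt := Nat.mod_lt k (show 0 < o + 1 by omega)
  generalize k % (o + 1) = r at *
  cases r with
  | zero => simp
  | succ r =>
    exfalso
    rw [← hu, hp, Function.iterate_succ_apply] at f1
    refine (run_spec _ _ _ _ (ok i)).2 r (by omega) ?_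
    have := fun l => ev_inj (congrFun f1 l)
    exact Prod.ext (this 0) (Prod.ext (this 1) (Prod.ext (this 2) (this 3)))

theorem c3 : ev (1, 0) = 2 * Real.cos (Real.pi / 3) := by simp [ev]
theorem c5 : ev (0, 1) = 2 * Real.cos (Real.pi / 5) := by
  simp [ev, Real.cos_pi_div_five, Real.goldenRatio]; ring
theorem c52 : ev (-1, 1) = 2 * Real.cos (Real.pi / (5 / 2)) := by
  rw [show Real.pi / (5 / 2) = 2 * (Real.pi / 5) by ring, Real.cos_two_mul, Real.cos_pi_div_five]
  have := Real.sq_sqrt (show (0 : ℝ) ≤ 5 by norm_num)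
  simp only [ev, Real.goldenRatio]; push_cast
  nlinarith

end Pool.Agent.H.MP_7f6035_co
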