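import Pool.Agent.H.MP_7f6035_co.E

namespace Pool.Agent.H.MP_7f6035_co

open Finset

theorem partD : ∀ s ∈ hess, StarAcoptic s := by
  intro s hs
  simp only [hess, List.mem_cons, List.not_mem_nil, or_false] at hs
  rcases hs with rfl | rfl | rfl | rfl | rfl | rfl | rfl | rfl | rfl | rfl
  · exact star _ ((1, 0), (0, 1), (-1, 1)) 19 c3 c5 c52 (by unfold Ok; decide +kernel)
  · exact star _ ((-1, 1), (0, 1), (1, 0)) 19 c52 c5 c3 (by unfold Ok; decide +kernel)
  · exact star _ ((0, 1), (-1, 1), (0, 1)) 14 c5 c52 c5 (by unfold Ok; decide +kernel)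
  · exact star _ ((0, 1), (1, 0), (-1, 1)) 11 c5 c3 c52 (by unfold Ok; decide +kernel)
  · exact star _ ((-1, 1), (1, 0), (0, 1)) 11 c52 c3 c5 (by unfold Ok; decide +kernel)
  · exact star _ ((-1, 1), (0, 1), (-1, 1)) 14 c52 c5 c52 (by unfold Ok; decide +kernel)
  · exact star _ ((0, 1), (-1, 1), (1, 0)) 19 c5 c52 c3 (by unfold Ok; decide +kernel)
  · exact star _ ((1, 0), (-1, 1), (0, 1)) 19 c3 c52 c5 (by unfold Ok; decide +kernel)
  · exact star _ ((1, 0), (1, 0), (-1, 1)) 29 c3 c3 c52 (by unfold Ok; decide +kernel)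
  · exact star _ ((-1, 1), (1, 0), (1, 0)) 29 c52 c3 c3 (by unfold Ok; decide +kernel)

end Pool.Agent.H.MP_7f6035_co
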